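import Pool.Agent.L0h45.AV.Stm3
import Pool.Agent.L0h19.AV.DEN

/-! # Project AV: the density of the `b` with positive squarefree discriminant (module DENn),
adapted from `L0h19.AV.DEN` (helper19) -/

set_option autoImplicit false

namespace Pool.Agent.L0h24.AV

open Finset Filter Topology
open scoped Classical
open Pool.Agent.N922.PQ (dsc)
open Pool.Agent.L0h45.AV
open Pool.Agent.L0h19.AV (card_cls card_low prime_int not_dvd_small two_cls cnt2 primes_small sqf_of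
  MZ_pos two_dvd_MZ sq_dvd_MZ Al_congr Al_low)

/-- the bad `b` -/
theorem bad (hP : S_PELLn) (a : ℤ) (ha : a ≠ 0) (ha3 : ¬ (3 : ℤ) ∣ a) (N w : ℕ) (hN : 1 ≤ N) (hw : 4 ≤ w)
    (s : ℤ) (H : ∀ p : ℕ, p.Prime → w < p → ∀ b : ℤ, (N : ℤ) ∣ b - s → (p : ℤ) ^ 2 ∣ dsc a b →
      ¬ (p : ℤ) ∣ a ∧ Nat.Coprime N p) (ε : ℝ) (hε : 0 < ε) :
    ∃ Y₀ : ℕ, ∀ Y ≥ Y₀, (((Icc (-(Y : ℤ)) Y).filter
      (fun b => (N : ℤ) ∣ b - s ∧ ∃ p : ℕ, p.Prime ∧ w < p ∧ (p : ℤ) ^ 2 ∣ dsc a b)).card : ℝ) ≤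
      4 * Y / (N * w) + ε * Y := by
  obtain ⟨Y₁, hY₁⟩ := hP a (ε / 2) ha ha3 (by positivity)
  obtain ⟨Y₂, hY₂⟩ := primes_small (ε / 4) (by positivity)
  refine ⟨max (max Y₁ Y₂) w, fun Y hY => ?_⟩
  have hYa : Y₁ ≤ Y := (le_max_left _ _).trans ((le_max_left _ _).trans hY)
  have hYb : Y₂ ≤ Y := (le_max_right _ _).trans ((le_max_left _ _).trans hY)
  have hYc : w ≤ Y := (le_max_right _ _).trans hY
  have h1 := hY₁ Y hYa
  have h2 := hY₂ Y hYb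
  obtain ⟨PS, hPS⟩ : ∃ PS : Finset ℕ, PS = (Ioc w Y).filter Nat.Prime := ⟨_, rfl⟩
  have hsub : (Icc (-(Y : ℤ)) Y).filter
      (fun b => (N : ℤ) ∣ b - s ∧ ∃ p : ℕ, p.Prime ∧ w < p ∧ (p : ℤ) ^ 2 ∣ dsc a b) ⊆
      (PS.biUnion fun p => (Icc (-(Y : ℤ)) Y).filter
        (fun b => (N : ℤ) ∣ b - s ∧ (p : ℤ) ^ 2 ∣ dsc a b)) ∪
      (Icc (-(Y : ℤ)) Y).filter (fun b => ∃ n : ℤ, (Y : ℤ) < n ∧ n ^ 2 ∣ 4 * a ^ 3 + 27 * b ^ 2) := by
    intro b hb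
    rw [mem_filter] at hb
    obtain ⟨hb1, hb2, p, hp, hwp, hd⟩ := hb
    rw [mem_union]
    rcases le_or_gt p Y with hpY | hpY
    · left
      rw [mem_biUnion]
      refine ⟨p, ?_, mem_filter.2 ⟨hb1, hb2, hd⟩⟩
      rw [hPS, mem_filter, mem_Ioc]
      exact ⟨⟨hwp, hpY⟩, hp⟩
    · right
      rw [mem_filter]
      exact ⟨hb1, (p : ℤ), by exact_mod_cast hpY, hd⟩
  have h3 := (card_le_card hsub).trans (card_union_le _ _)
  have h4 : ((PS.biUnion fun p => (Icc (-(Y : ℤ)) Y).filter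
        (fun b => (N : ℤ) ∣ b - s ∧ (p : ℤ) ^ 2 ∣ dsc a b)).card : ℝ) ≤
      ∑ p ∈ PS, 2 * (2 * Y / (N * (p : ℝ) ^ 2) + 1) := by
    have h5 : (PS.biUnion fun p => (Icc (-(Y : ℤ)) Y).filter
        (fun b => (N : ℤ) ∣ b - s ∧ (p : ℤ) ^ 2 ∣ dsc a b)).card ≤
        ∑ p ∈ PS, ((Icc (-(Y : ℤ)) Y).filter
          (fun b => (N : ℤ) ∣ b - s ∧ (p : ℤ) ^ 2 ∣ dsc a b)).card := card_biUnion_le
    refine (Nat.cast_le.2 h5).trans ?_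
    rw [Nat.cast_sum]
    apply sum_le_sum
    intro p hp
    rw [hPS, mem_filter, mem_Ioc] at hp
    obtain ⟨⟨hwp, hpY⟩, hpp⟩ := hp
    rcases ((Icc (-(Y : ℤ)) Y).filter
          (fun b => (N : ℤ) ∣ b - s ∧ (p : ℤ) ^ 2 ∣ dsc a b)).eq_empty_or_nonempty with h6 | ⟨b, hb⟩
    · rw [h6, card_empty, Nat.cast_zero]
      positivity
    · rw [mem_filter] at hb
      obtain ⟨h7, h8⟩ := H p hpp hwp b hb.2.1 hb.2.2
      exact cnt2 hpp (by omega) h7 N hN h8 s Y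
  have hw0 : w ≠ 0 := by omega
  have hNr : (0 : ℝ) < N := by exact_mod_cast hN
  have h5 : ∑ p ∈ PS, 2 * (2 * Y / (N * (p : ℝ) ^ 2) + 1) ≤ 4 * Y / (N * w) + 2 * (PS.card : ℝ) := by
    have e : ∑ p ∈ PS, 2 * (2 * (Y : ℝ) / (N * (p : ℝ) ^ 2) + 1) =
        4 * Y / N * ∑ p ∈ PS, ((p : ℝ) ^ 2)⁻¹ + 2 * (PS.card : ℝ) := by
      have e0 : 2 * (PS.card : ℝ) = ∑ p ∈ PS, (2 : ℝ) := by
        rw [sum_const, nsmul_eq_mul, mul_comm]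
      rw [e0, mul_sum, ← sum_add_distrib]
      apply sum_congr rfl
      intro p hp
      rw [hPS, mem_filter] at hp
      have hp0 : (0 : ℝ) < p := by exact_mod_cast hp.2.pos
      field_simp
      ring
    rw [e]
    have h6 : ∑ p ∈ PS, ((p : ℝ) ^ 2)⁻¹ ≤ (w : ℝ)⁻¹ := by
      calc ∑ p ∈ PS, ((p : ℝ) ^ 2)⁻¹ ≤ ∑ p ∈ Ioc w Y, ((p : ℝ) ^ 2)⁻¹ := by
            apply sum_le_sum_of_subset_of_nonneg
            · rw [hPS]; exact filter_subset _ _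
            · intro i _ _; positivity
        _ ≤ (w : ℝ)⁻¹ - (Y : ℝ)⁻¹ := sum_Ioc_inv_sq_le_sub hw0 hYc
        _ ≤ (w : ℝ)⁻¹ := by
            have : (0 : ℝ) ≤ (Y : ℝ)⁻¹ := by positivity
            linarith
    have h7 : 4 * (Y : ℝ) / (N * w) = 4 * Y / N * (w : ℝ)⁻¹ := by
      field_simp
    rw [h7]
    have h8 : (0 : ℝ) ≤ 4 * Y / N := by positivity
    nlinarith [mul_le_mul_of_nonneg_left h6 h8]
  have h6 : (PS.card : ℝ) ≤ Nat.primeCounting Y := by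
    rw [← Nat.primesLE_card_eq_primeCounting]
    have : PS ⊆ Nat.primesLE Y := by
      intro p hp
      rw [hPS, mem_filter, mem_Ioc] at hp
      rw [Nat.mem_primesLE]
      exact ⟨hp.1.2, hp.2⟩
    exact_mod_cast card_le_card this
  have h7 : (((Icc (-(Y : ℤ)) Y).filter
      (fun b => (N : ℤ) ∣ b - s ∧ ∃ p : ℕ, p.Prime ∧ w < p ∧ (p : ℤ) ^ 2 ∣ dsc a b)).card : ℝ) ≤
      ((PS.biUnion fun p => (Icc (-(Y : ℤ)) Y).filter
        (fun b => (N : ℤ) ∣ b - s ∧ (p : ℤ) ^ 2 ∣ dsc a b)).card : ℝ) +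
      (((Icc (-(Y : ℤ)) Y).filter (fun b => ∃ n : ℤ, (Y : ℤ) < n ∧ n ^ 2 ∣ 4 * a ^ 3 + 27 * b ^ 2)).card : ℝ) := by
    exact_mod_cast h3
  linarith

/-- the first part -/
theorem part1 (hP : S_PELLn) (a : ℤ) (ha : a ≠ 0) (ha3 : ¬ (3 : ℤ) ∣ a) :
    ∃ c : ℝ, 0 < c ∧ ∃ Y₀ : ℕ, ∀ Y ≥ Y₀,
      c * (Y : ℝ) ≤ (((Icc (-(Y : ℤ)) Y).filter (fun b => Squarefree (dsc a b))).card : ℝ) := by
  obtain ⟨A, hAa⟩ : ∃ A : ℕ, A = a.natAbs := ⟨_, rfl⟩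
  have hA : 1 ≤ A := by omega
  have hAd : ∀ p : ℤ, p ∣ (A : ℤ) ↔ p ∣ a := fun p => by rw [hAa]; exact Int.dvd_natAbs
  have hAr : (0 : ℝ) < A := by exact_mod_cast hA
  have H : ∀ p : ℕ, p.Prime → 4 < p → ∀ b : ℤ, ((2 * A : ℕ) : ℤ) ∣ b - 1 → (p : ℤ) ^ 2 ∣ dsc a b →
      ¬ (p : ℤ) ∣ a ∧ Nat.Coprime (2 * A) p := by
    intro p hp h5 b hb hd
    have hpp := prime_int hp
    have h1 : ¬ (p : ℤ) ∣ a := by
      intro hpa
      have hpA : (p : ℤ) ∣ (A : ℤ) := (hAd p).2 hpa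
      have h2 : (p : ℤ) ∣ b - 1 := by
        refine Dvd.dvd.trans ?_ hb
        push_cast
        exact hpA.mul_left _
      have h3 : (p : ℤ) ∣ 27 * b ^ 2 := by
        have h4 : (p : ℤ) ∣ dsc a b := (dvd_pow_self _ two_ne_zero).trans hd
        have e : 27 * b ^ 2 = dsc a b - 4 * a ^ 2 * a := by unfold dsc; ring
        rw [e]
        exact dvd_sub h4 (hpa.mul_left _)
      have h4 : (p : ℤ) ∣ b := by
        rcases hpp.dvd_or_dvd h3 with h6 | h6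
        · exfalso
          have e : (27 : ℤ) = 3 ^ 3 := by norm_num
          rw [e] at h6
          exact not_dvd_small hp h5 3 (by norm_num) (by norm_num) (hpp.dvd_of_dvd_pow h6)
        · exact hpp.dvd_of_dvd_pow h6
      have h6 : (p : ℤ) ∣ 1 := by
        have := dvd_sub h4 h2
        have e : b - (b - 1) = 1 := by ring
        rwa [e] at this
      exact not_dvd_small hp h5 1 (by norm_num) (by norm_num) (by exact_mod_cast h6)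
    refine ⟨h1, ?_⟩
    apply Nat.Coprime.symm
    rw [Nat.Prime.coprime_iff_not_dvd hp]
    intro h2
    rcases (Nat.Prime.dvd_mul hp).1 h2 with h3 | h3
    · exact not_dvd_small hp h5 2 (by norm_num) (by norm_num) (by exact_mod_cast h3)
    · exact h1 ((hAd p).1 (by exact_mod_cast h3))
  obtain ⟨Y₁, hY₁⟩ := bad hP a ha ha3 (2 * A) 4 (by omega) le_rfl 1 H (1 / (8 * A)) (by positivity)
  refine ⟨1 / (8 * A), by positivity, max Y₁ (8 * A), fun Y hY => ?_⟩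
  have h1 := hY₁ Y ((le_max_left _ _).trans hY)
  have hY8 : 8 * A ≤ Y := (le_max_right _ _).trans hY
  have h2 := card_low Y (2 * A) (by omega) 1
  have hsub : (Icc (-(Y : ℤ)) Y).filter (fun b => ((2 * A : ℕ) : ℤ) ∣ b - 1) ⊆
      (Icc (-(Y : ℤ)) Y).filter (fun b => Squarefree (dsc a b)) ∪
      (Icc (-(Y : ℤ)) Y).filter
      (fun b => ((2 * A : ℕ) : ℤ) ∣ b - 1 ∧ ∃ p : ℕ, p.Prime ∧ 4 < p ∧ (p : ℤ) ^ 2 ∣ dsc a b) := by
    intro b hb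
    rw [mem_filter] at hb
    rw [mem_union, mem_filter, mem_filter]
    by_cases hsq : Squarefree (dsc a b)
    · left; exact ⟨hb.1, hsq⟩
    · right
      refine ⟨hb.1, hb.2, ?_⟩
      by_contra hcon
      apply hsq
      apply sqf_of ha3
      · obtain ⟨k, hk⟩ := hb.2
        refine ⟨A * k, ?_⟩
        push_cast at hk
        linarith
      · intro p hp hp5 hd
        exact hcon ⟨p, hp, hp5, hd⟩
  have h3 := (card_le_card hsub).trans (card_union_le _ _)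
  have h4 : (((Icc (-(Y : ℤ)) Y).filter (fun b => ((2 * A : ℕ) : ℤ) ∣ b - 1)).card : ℝ) ≤
      (((Icc (-(Y : ℤ)) Y).filter (fun b => Squarefree (dsc a b))).card : ℝ) +
      (((Icc (-(Y : ℤ)) Y).filter
      (fun b => ((2 * A : ℕ) : ℤ) ∣ b - 1 ∧ ∃ p : ℕ, p.Prime ∧ 4 < p ∧ (p : ℤ) ^ 2 ∣ dsc a b)).card : ℝ) := by
    exact_mod_cast h3
  have hYr : 8 * (A : ℝ) ≤ Y := by exact_mod_cast hY8
  have h5 : 1 ≤ (Y : ℝ) / (8 * A) := by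
    rw [le_div_iff₀ (by positivity)]; linarith
  have e1 : (2 * (Y : ℝ) + 1) / ((2 * A : ℕ) : ℝ) = 8 * (Y / (8 * A)) + 1 / (2 * A) := by
    push_cast
    field_simp
  have e2 : 4 * (Y : ℝ) / (((2 * A : ℕ) : ℝ) * ((4 : ℕ) : ℝ)) = 4 * (Y / (8 * A)) := by
    push_cast
    field_simp
    ring
  have e3 : 1 / (8 * (A : ℝ)) * Y = Y / (8 * A) := by ring
  rw [e1] at h2
  rw [e2, e3] at h1
  rw [e3]
  have h6 : (0 : ℝ) ≤ 1 / (2 * A) := by positivity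
  linarith

/-- the density without the condition on the sign -/
theorem den (hP : S_PELLn) (a : ℤ) (ha : a ≠ 0) (ha3 : ¬ (3 : ℤ) ∣ a) :
  (∃ c : ℝ, 0 < c ∧ ∃ Y₀ : ℕ, ∀ Y ≥ Y₀,
    c * (Y : ℝ) ≤ (((Icc (-(Y : ℤ)) Y).filter (fun b => Squarefree (dsc a b))).card : ℝ)) ∧
  ∀ ε : ℝ, 0 < ε → ∃ Z₀ : ℕ, ∀ Z ≥ Z₀, ∃ Y₀ : ℕ, ∀ Y ≥ Y₀,
    2 * (Y : ℝ) * (((Ico (0 : ℤ) (MZ Z)).filter (fun b => Al Z a b)).card : ℝ) / (MZ Z : ℝ) ≤
      (1 + ε) * (((Icc (-(Y : ℤ)) Y).filter (fun b => Squarefree (dsc a b))).card : ℝ) := by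
  have hp1 := part1 hP a ha ha3
  refine ⟨hp1, ?_⟩
  obtain ⟨c, hc, Y₁, hY₁⟩ := hp1
  intro ε hε
  obtain ⟨Z₁, hZ₁⟩ : ∃ Z₁ : ℕ, 16 / (ε * c) ≤ (Z₁ : ℝ) := exists_nat_ge _
  refine ⟨max (max Z₁ 4) a.natAbs, fun Z hZ => ?_⟩
  have hZa : Z₁ ≤ Z := (le_max_left _ _).trans ((le_max_left _ _).trans hZ)
  have hZb : 4 ≤ Z := (le_max_right _ _).trans ((le_max_left _ _).trans hZ)
  have hZc : a.natAbs ≤ Z := (le_max_right _ _).trans hZ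
  have hec : 0 < ε * c := mul_pos hε hc
  have H : ∀ p : ℕ, p.Prime → Z < p → ∀ b : ℤ, ((1 : ℕ) : ℤ) ∣ b - 0 → (p : ℤ) ^ 2 ∣ dsc a b →
      ¬ (p : ℤ) ∣ a ∧ Nat.Coprime 1 p := by
    intro p hp hZp b _ _
    refine ⟨fun h => ?_, Nat.coprime_one_left p⟩
    have h1 : p ∣ a.natAbs := Int.natCast_dvd.1 h
    have h2 := Nat.le_of_dvd (by omega) h1
    omega
  obtain ⟨Y₂, hY₂⟩ := bad hP a ha ha3 1 Z le_rfl hZb 0 H (ε * c / 4) (by positivity)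
  obtain ⟨Y₃, hY₃⟩ : ∃ Y₃ : ℕ, 4 * (MZ Z : ℝ) / (ε * c) ≤ (Y₃ : ℝ) := exists_nat_ge _
  refine ⟨max (max Y₁ Y₂) Y₃, fun Y hY => ?_⟩
  have hYa : Y₁ ≤ Y := (le_max_left _ _).trans ((le_max_left _ _).trans hY)
  have hYb : Y₂ ≤ Y := (le_max_right _ _).trans ((le_max_left _ _).trans hY)
  have hYc : Y₃ ≤ Y := (le_max_right _ _).trans hY
  have h1 := hY₁ Y hYa
  have h2 := hY₂ Y hYb
  have h3 := Al_low Z Y a
  have hsub : (Icc (-(Y : ℤ)) Y).filter (fun b => Al Z a b) ⊆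
      (Icc (-(Y : ℤ)) Y).filter (fun b => Squarefree (dsc a b)) ∪
      (Icc (-(Y : ℤ)) Y).filter
      (fun b => ((1 : ℕ) : ℤ) ∣ b - 0 ∧ ∃ p : ℕ, p.Prime ∧ Z < p ∧ (p : ℤ) ^ 2 ∣ dsc a b) := by
    intro b hb
    rw [mem_filter] at hb
    rw [mem_union, mem_filter, mem_filter]
    by_cases hsq : Squarefree (dsc a b)
    · left; exact ⟨hb.1, hsq⟩
    · right
      refine ⟨hb.1, ⟨b - 0, by push_cast; ring⟩, ?_⟩
      by_contra hcon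
      apply hsq
      apply sqf_of ha3 hb.2.1
      intro p hp hp5 hd
      by_cases hpZ : p ≤ Z
      · exact hb.2.2 p hp hp5 hpZ hd
      · exact hcon ⟨p, hp, not_le.1 hpZ, hd⟩
  have h4 : (((Icc (-(Y : ℤ)) Y).filter (fun b => Al Z a b)).card : ℝ) ≤
      (((Icc (-(Y : ℤ)) Y).filter (fun b => Squarefree (dsc a b))).card : ℝ) +
      (((Icc (-(Y : ℤ)) Y).filter
      (fun b => ((1 : ℕ) : ℤ) ∣ b - 0 ∧ ∃ p : ℕ, p.Prime ∧ Z < p ∧ (p : ℤ) ^ 2 ∣ dsc a b)).card : ℝ) := by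
    exact_mod_cast (card_le_card hsub).trans (card_union_le _ _)
  have hMr : (0 : ℝ) < (MZ Z : ℝ) := by exact_mod_cast MZ_pos Z
  have hZr : (0 : ℝ) < (Z : ℝ) := by exact_mod_cast (by omega : 0 < Z)
  have h5 : (((Ico (0 : ℤ) (MZ Z)).filter (fun b => Al Z a b)).card : ℝ) ≤ (MZ Z : ℝ) := by
    have h6 := card_filter_le (Ico (0 : ℤ) (MZ Z)) (fun b => Al Z a b)
    rw [Int.card_Ico, sub_zero, Int.toNat_natCast] at h6
    exact_mod_cast h6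
  obtain ⟨q, hq⟩ : ∃ q : ℝ, q = (((Ico (0 : ℤ) (MZ Z)).filter (fun b => Al Z a b)).card : ℝ) := ⟨_, rfl⟩
  rw [← hq] at h3 h5 ⊢
  have hq0 : 0 ≤ q := by rw [hq]; positivity
  have h6 : 2 * (Y : ℝ) * q / (MZ Z : ℝ) - q ≤ q * ((2 * (Y : ℝ) + 1) / (MZ Z : ℝ) - 1) := by
    have e : q * ((2 * (Y : ℝ) + 1) / (MZ Z : ℝ) - 1) =
        2 * (Y : ℝ) * q / (MZ Z : ℝ) - q + q / (MZ Z : ℝ) := by
      field_simp
      ring
    rw [e]
    have : 0 ≤ q / (MZ Z : ℝ) := by positivity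
    linarith
  have h7 : 4 * (Y : ℝ) / (((1 : ℕ) : ℝ) * (Z : ℝ)) ≤ ε * c / 4 * Y := by
    have h8 : 16 / (ε * c) ≤ (Z : ℝ) := hZ₁.trans (by exact_mod_cast hZa)
    rw [div_le_iff₀ hec] at h8
    rw [Nat.cast_one, one_mul, div_le_iff₀ hZr]
    have h9 : (0 : ℝ) ≤ Y := Nat.cast_nonneg _
    nlinarith
  have h8 : (MZ Z : ℝ) ≤ ε * c / 4 * Y := by
    have h9 : 4 * (MZ Z : ℝ) / (ε * c) ≤ (Y : ℝ) := hY₃.trans (by exact_mod_cast hYc)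
    rw [div_le_iff₀ hec] at h9
    linarith
  have h9 : ε * (c * Y) ≤ ε * (((Icc (-(Y : ℤ)) Y).filter (fun b => Squarefree (dsc a b))).card : ℝ) :=
    mul_le_mul_of_nonneg_left h1 hε.le
  have h10 : (0 : ℝ) ≤ ε * c * Y := by positivity
  have h11 : ε * (c * (Y : ℝ)) = ε * c * Y := by ring
  rw [h11] at h9
  obtain ⟨Bs, hBs⟩ : ∃ Bs : Finset ℤ, Bs = (Icc (-(Y : ℤ)) Y).filter
      (fun b => ((1 : ℕ) : ℤ) ∣ b - 0 ∧ ∃ p : ℕ, p.Prime ∧ Z < p ∧ (p : ℤ) ^ 2 ∣ dsc a b) := ⟨_, rfl⟩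
  obtain ⟨As, hAs⟩ : ∃ As : Finset ℤ, As = (Icc (-(Y : ℤ)) Y).filter (fun b => Al Z a b) := ⟨_, rfl⟩
  obtain ⟨Ss, hSs⟩ : ∃ Ss : Finset ℤ, Ss = (Icc (-(Y : ℤ)) Y).filter (fun b => Squarefree (dsc a b)) := ⟨_, rfl⟩
  rw [← hSs] at h1
  rw [← hSs] at h9
  rw [← hSs] at h4
  rw [← hBs] at h4
  rw [← hBs] at h2
  rw [← hAs] at h4
  rw [← hAs] at h3
  rw [← hSs]
  have h12 : 2 * (Y : ℝ) * q / (MZ Z : ℝ) ≤
      (1 + ε) * (Ss.card : ℝ) := by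
    rw [add_mul, one_mul]
    linarith
  exact h12

/-- the values which are not positive -/
theorem npos (a : ℤ) (ha : a ≠ 0) (Y : ℕ) :
    (((Icc (-(Y : ℤ)) Y).filter (fun b => Squarefree (dsc a b))).card : ℝ) ≤
      (((Icc (-(Y : ℤ)) Y).filter (fun b => 0 < dsc a b ∧ Squarefree (dsc a b))).card : ℝ) +
        (2 * (a : ℝ) ^ 2 + 1) := by
  have hsub : (Icc (-(Y : ℤ)) Y).filter (fun b => Squarefree (dsc a b)) ⊆
      (Icc (-(Y : ℤ)) Y).filter (fun b => 0 < dsc a b ∧ Squarefree (dsc a b)) ∪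
      Icc (-(a ^ 2)) (a ^ 2) := by
    intro b hb
    rw [mem_filter] at hb
    rw [mem_union, mem_filter]
    by_cases h : 0 < dsc a b
    · left; exact ⟨hb.1, h, hb.2⟩
    · right
      rw [mem_Icc]
      unfold dsc at h
      push Not at h
      have h1 : b ^ 2 ≤ (a ^ 2) ^ 2 := by
        have h2 : 1 ≤ |a| := Int.one_le_abs ha
        have h3 : -(a ^ 3) ≤ |a| ^ 3 := by
          have h4 : -a ≤ |a| := neg_le_abs a
          have h5 : -(a ^ 3) ≤ |a ^ 3| := neg_le_abs _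
          rwa [abs_pow] at h5
        have h4 : |a| ^ 3 ≤ |a| ^ 4 := pow_le_pow_right₀ h2 (by norm_num)
        have h5 : |a| ^ 4 = (a ^ 2) ^ 2 := by
          rw [← sq_abs a]; ring
        have h6 : 0 ≤ |a| ^ 3 := by positivity
        nlinarith
      exact abs_le.1 (abs_le_of_sq_le_sq h1 (by positivity))
  have h1 := (card_le_card hsub).trans (card_union_le _ _)
  have h2 : ((Icc (-(a ^ 2)) (a ^ 2)).card : ℝ) = 2 * (a : ℝ) ^ 2 + 1 := by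
    have h3 : ((Icc (-(a ^ 2)) (a ^ 2)).card : ℤ) = 2 * a ^ 2 + 1 := by
      rw [Int.card_Icc, Int.toNat_of_nonneg (by nlinarith [sq_nonneg a])]
      ring
    have h4 : (((Icc (-(a ^ 2)) (a ^ 2)).card : ℤ) : ℝ) = ((2 * a ^ 2 + 1 : ℤ) : ℝ) := by rw [h3]
    push_cast at h4
    rw [← h4]
  rw [← h2]
  exact_mod_cast h1

/-- module DENn -/
theorem t_DENn (hP : S_PELLn) : S_DENn := by
  intro a ha hodd ha3
  obtain ⟨⟨c, hc, Y₁, hY₁⟩, hB⟩ := den hP a ha ha3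
  obtain ⟨k, hk⟩ : ∃ k : ℝ, k = 2 * (a : ℝ) ^ 2 + 1 := ⟨_, rfl⟩
  have hk0 : 0 < k := by rw [hk]; positivity
  have hN := npos a ha
  rw [← hk] at hN
  refine ⟨?_, ?_⟩
  · obtain ⟨Y₂, hY₂⟩ : ∃ Y₂ : ℕ, 2 * k / c ≤ (Y₂ : ℝ) := exists_nat_ge _
    refine ⟨c / 2, by positivity, max Y₁ Y₂, fun Y hY => ?_⟩
    have h1 := hY₁ Y ((le_max_left _ _).trans hY)
    have h2 : 2 * k / c ≤ (Y : ℝ) := hY₂.trans (by exact_mod_cast (le_max_right _ _).trans hY)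
    rw [div_le_iff₀ hc] at h2
    have h3 := hN Y
    linarith
  · intro ε hε
    obtain ⟨Z₀, hZ₀⟩ := hB (ε / 2) (by positivity)
    refine ⟨Z₀, fun Z hZ => ?_⟩
    obtain ⟨Y₂, hY₂⟩ := hZ₀ Z hZ
    obtain ⟨Y₃, hY₃⟩ : ∃ Y₃ : ℕ, (2 / ε + 2) * k / c ≤ (Y₃ : ℝ) := exists_nat_ge _
    refine ⟨max (max Y₁ Y₂) Y₃, fun Y hY => ?_⟩
    have hYa : Y₁ ≤ Y := (le_max_left _ _).trans ((le_max_left _ _).trans hY)
    have hYb : Y₂ ≤ Y := (le_max_right _ _).trans ((le_max_left _ _).trans hY)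
    have hYc : Y₃ ≤ Y := (le_max_right _ _).trans hY
    have h1 := hY₁ Y hYa
    have h2 := hY₂ Y hYb
    have h3 : (2 / ε + 2) * k / c ≤ (Y : ℝ) := hY₃.trans (by exact_mod_cast hYc)
    rw [div_le_iff₀ hc] at h3
    have h4 := hN Y
    refine h2.trans ?_
    obtain ⟨P, hPP⟩ : ∃ P : ℝ, P = (((Icc (-(Y : ℤ)) Y).filter
      (fun b => 0 < dsc a b ∧ Squarefree (dsc a b))).card : ℝ) := ⟨_, rfl⟩
    obtain ⟨S, hSS⟩ : ∃ S : ℝ, S = (((Icc (-(Y : ℤ)) Y).filter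
      (fun b => Squarefree (dsc a b))).card : ℝ) := ⟨_, rfl⟩
    rw [← hPP] at h4
    rw [← hSS] at h4 h1
    rw [← hPP, ← hSS]
    have h5 : (2 / ε + 1) * k ≤ P := by linarith
    have h6 : ε / 2 * ((2 / ε + 1) * k) ≤ ε / 2 * P := mul_le_mul_of_nonneg_left h5 (by positivity)
    have h7 : ε / 2 * ((2 / ε + 1) * k) = (1 + ε / 2) * k := by field_simp
    have h8 : (1 + ε / 2) * S ≤ (1 + ε / 2) * (P + k) := mul_le_mul_of_nonneg_left h4 (by positivity)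
    rw [h7] at h6
    linarith

end Pool.Agent.L0h24.AV
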