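import Pool.Agent.L0h45.AV.Stm

/-! # EUL: the Euler product of `ζ(2)` -/

set_option autoImplicit false
set_option linter.all false

open Finset Filter Topology

namespace Pool.Agent.L0h24.AV

open Pool.Agent.L0h45.AV

theorem eul_tendsto : Tendsto (fun n : ℕ => ∏ p ∈ n.primesBelow, (1 - 1 / (p : ℝ) ^ 2)) atTop
    (𝓝 (6 / Real.pi ^ 2)) := by
  have h1 := riemannZeta_eulerProduct (s := 2) (by norm_num)
  rw [riemannZeta_two] at h1
  have h2 : ∀ n : ℕ, (∏ p ∈ n.primesBelow, (1 - (p : ℂ) ^ (-(2 : ℂ)))⁻¹) =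
      (((∏ p ∈ n.primesBelow, (1 - 1 / (p : ℝ) ^ 2))⁻¹ : ℝ) : ℂ) := by
    intro n
    rw [← Finset.prod_inv_distrib]
    push_cast
    refine Finset.prod_congr rfl fun p _ => ?_
    congr 2
    rw [Complex.cpow_neg, one_div]
    norm_cast
  have h3 : Tendsto (fun n : ℕ => (((∏ p ∈ n.primesBelow, (1 - 1 / (p : ℝ) ^ 2))⁻¹ : ℝ) : ℂ)) atTop
      (𝓝 (((Real.pi ^ 2 / 6 : ℝ)) : ℂ)) := by
    refine (h1.congr h2).congr' (Eventually.of_forall fun _ => rfl) |>.trans (le_of_eq ?_)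
    push_cast
    rfl
  have h4 : Tendsto (fun n : ℕ => (∏ p ∈ n.primesBelow, (1 - 1 / (p : ℝ) ^ 2))⁻¹) atTop
      (𝓝 (Real.pi ^ 2 / 6)) := by
    have := (Complex.continuous_re.tendsto _).comp h3
    rw [Complex.ofReal_re] at this
    exact this.congr fun n => Complex.ofReal_re _
  have h5 := h4.inv₀ (by positivity)
  simpa using h5

theorem t_EUL : S_EUL := by
  intro ε hε
  have h1 := eul_tendsto.eventually (gt_mem_nhds (show 6 / Real.pi ^ 2 < 6 / Real.pi ^ 2 + 3 / 4 * ε by linarith))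
  obtain ⟨N, hN⟩ := eventually_atTop.1 h1
  refine ⟨N + 3, fun Z hZ => ?_⟩
  have h2 := hN (Z + 1) (by omega)
  have h3 : (Z + 1).primesBelow = insert 2 ((Icc 3 Z).filter Nat.Prime) := by
    ext p
    rw [Nat.mem_primesBelow, mem_insert, mem_filter, mem_Icc]
    constructor
    · rintro ⟨h3, h4⟩
      have := h4.two_le
      rcases Nat.lt_or_ge 2 p with h5 | h5
      · exact Or.inr ⟨⟨h5, by omega⟩, h4⟩
      · exact Or.inl (by omega)
    · rintro (rfl | ⟨⟨h3, h4⟩, h5⟩)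
      · exact ⟨by omega, Nat.prime_two⟩
      · exact ⟨by omega, h5⟩
  rw [h3, Finset.prod_insert (by simp)] at h2
  have h4 : (1 - 1 / ((2 : ℕ) : ℝ) ^ 2) = 3 / 4 := by norm_num
  rw [h4] at h2
  have h5 : 8 / Real.pi ^ 2 = 4 / 3 * (6 / Real.pi ^ 2) := by ring
  rw [h5]
  linarith

end Pool.Agent.L0h24.AV
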