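import Pool.Agent.L0h45.AV.Stm

/-! # SL8: the condition at `2` -/

set_option autoImplicit false
set_option linter.all false

namespace Pool.Agent.L0h24.AV

open Pool.Agent.N874.PP (Tup chA chB gq tau Ev)
open Pool.Agent.L0h45.AV

theorem sq_mod8 (n : ℤ) : ∃ q r : ℤ, n ^ 2 = 8 * q + r ∧ (r = 0 ∨ r = 1 ∨ r = 4) := by
  obtain ⟨k, hk⟩ : ∃ k, n = 4 * k + n % 4 := ⟨n / 4, by omega⟩
  have h0 : 0 ≤ n % 4 := by omega
  have h4 : n % 4 < 4 := by omega
  obtain ⟨m, hm⟩ : ∃ m, m = n % 4 := ⟨_, rfl⟩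
  rw [← hm] at hk h0 h4
  interval_cases m
  · exact ⟨2 * k ^ 2, 0, by rw [hk]; ring, Or.inl rfl⟩
  · exact ⟨2 * k ^ 2 + k, 1, by rw [hk]; ring, Or.inr (Or.inl rfl)⟩
  · exact ⟨2 * k ^ 2 + 2 * k, 4, by rw [hk]; ring, Or.inr (Or.inr rfl)⟩
  · exact ⟨2 * k ^ 2 + 3 * k + 1, 1, by rw [hk]; ring, Or.inr (Or.inl rfl)⟩

theorem odd_sq (n : ℤ) (h : Odd n) : ∃ m : ℤ, n ^ 2 = 8 * m + 1 := by
  obtain ⟨k, rfl⟩ := h
  obtain ⟨j, hj⟩ := Int.even_mul_succ_self k
  exact ⟨j, by linear_combination 4 * hj⟩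

theorem sq_par (n : ℤ) : ∃ m : ℤ, n ^ 2 = n + 2 * m := by
  obtain ⟨j, hj⟩ := Int.even_mul_pred_self n
  exact ⟨j, by linear_combination hj⟩

/-- the final case distinction -/
theorem fin_case (x P K n' k : ℤ) (h : x + 4 * (K * P) = -n' ^ 2 + 8 * k) :
    4 ∣ x ∨ 8 ∣ x - 7 ∨ (8 ∣ x - 3 ∧ 2 ∣ K - 1) := by
  obtain ⟨q, r, hq, hr⟩ := sq_mod8 n'
  rcases Int.even_or_odd K with hK | hK
  · obtain ⟨j, hj⟩ := hK
    have e : K * P = 2 * (j * P) := by rw [hj]; ring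
    rw [e, hq] at h
    generalize j * P = u at h
    rcases hr with rfl | rfl | rfl
    · left; omega
    · right; left; omega
    · left; omega
  · obtain ⟨j, hj⟩ := hK
    rcases Int.even_or_odd P with hP | hP
    · obtain ⟨i, hi⟩ := hP
      have e : K * P = 2 * (K * i) := by rw [hi]; ring
      rw [e, hq] at h
      generalize K * i = u at h
      rcases hr with rfl | rfl | rfl
      · left; omega
      · right; left; omega
      · left; omega
    · obtain ⟨i, hi⟩ := hP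
      have e : K * P = 2 * (2 * (j * i) + j + i) + 1 := by rw [hi, hj]; ring
      rw [e, hq] at h
      generalize j * i = u at h
      rcases hr with rfl | rfl | rfl
      · left; omega
      · right; right; constructor <;> omega
      · left; omega

theorem t_SL8 : S_SL8 := by
  intro B s t n _ _ hst h
  have hgh : gh B s t = 4 * B.x * s ^ 4 - 8 * B.y * s ^ 3 * t - 12 * B.c * s ^ 2 * t ^ 2 +
    4 * B.z * s * t ^ 3 + B.w * t ^ 4 := rfl
  rw [hgh] at h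
  rcases Int.even_or_odd t with ht | ht
  · -- `t` even, `s` odd
    have hs : Odd s := by
      rw [← Int.not_even_iff_odd]
      intro hs
      have h2 : IsUnit (2 : ℤ) := hst.isUnit_of_dvd' hs.two_dvd ht.two_dvd
      rw [Int.isUnit_iff] at h2
      omega
    obtain ⟨u, hu⟩ := ht
    have hu' : t = 2 * u := by rw [hu]; ring
    obtain ⟨m, hm⟩ := odd_sq s hs
    obtain ⟨k, hk⟩ := hs
    obtain ⟨e, he⟩ := sq_par u
    have hn : Even n := by
      have h1 : Even (n ^ 2) := by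
        refine ⟨-(2 * B.x * s ^ 4 - 4 * B.y * s ^ 3 * t - 6 * B.c * s ^ 2 * t ^ 2 + 2 * B.z * s * t ^ 3 +
          8 * B.w * u ^ 4), ?_⟩
        have h3 : B.w * t ^ 4 = 16 * B.w * u ^ 4 := by rw [hu']; ring
        linarith
      exact (Int.even_pow.1 h1).1
    obtain ⟨n', hn'⟩ := hn
    have h' : B.x * s ^ 4 - 4 * B.y * s ^ 3 * u - 12 * B.c * s ^ 2 * u ^ 2 + 8 * B.z * s * u ^ 3 +
        4 * B.w * u ^ 4 = -n' ^ 2 := by
      rw [hu', hn'] at h
      have h4 : 4 * (B.x * s ^ 4 - 4 * B.y * s ^ 3 * u - 12 * B.c * s ^ 2 * u ^ 2 + 8 * B.z * s * u ^ 3 +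
        4 * B.w * u ^ 4) = 4 * (-n' ^ 2) := by linear_combination h
      exact mul_left_cancel₀ (by norm_num) h4
    have key : B.x + 4 * ((B.y + B.c + B.w) * u) = -n' ^ 2 + 8 *
        (-(B.x * (8 * m ^ 2 + 2 * m) - B.y * u - B.y * u * k - 4 * B.y * u * s * m - 2 * B.c * u - 3 * B.c * e -
          12 * B.c * m * u ^ 2 + B.z * s * u ^ 3 + B.w * (e + 2 * u * e + 2 * e ^ 2))) := by
      linear_combination h' + (-(B.x * (8 * m + 1 + s ^ 2)) + 4 * B.y * u * s + 12 * B.c * u ^ 2) * hm +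
        4 * B.y * u * hk + (12 * B.c - 4 * B.w * (u ^ 2 + u + 2 * e + 1)) * he
    rcases fin_case _ _ _ _ _ key with h1 | h1 | ⟨h1, h2⟩
    · exact Or.inl h1
    · exact Or.inr (Or.inr (Or.inl h1))
    · exact Or.inr (Or.inr (Or.inr (Or.inr (Or.inl ⟨h1, h2⟩))))
  · obtain ⟨m, hm⟩ := odd_sq t ht
    obtain ⟨k, hk⟩ := ht
    obtain ⟨e, he⟩ := sq_par s
    have key : B.w + 4 * ((B.x + B.c + B.z) * s) = -n ^ 2 + 8 *
        (-(B.x * (e + 2 * s * e + 2 * e ^ 2) - B.y * s ^ 3 * t - 2 * B.c * s - 3 * B.c * e -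
          12 * B.c * m * s ^ 2 + B.z * s * k + 4 * B.z * s * t * m + B.w * (8 * m ^ 2 + 2 * m))) := by
      linear_combination h + (-(B.w * (8 * m + 1 + t ^ 2)) - 4 * B.z * s * t + 12 * B.c * s ^ 2) * hm -
        4 * B.z * s * hk + (12 * B.c - 4 * B.x * (s ^ 2 + s + 2 * e + 1)) * he
    rcases fin_case _ _ _ _ _ key with h1 | h1 | ⟨h1, h2⟩
    · exact Or.inr (Or.inl h1)
    · exact Or.inr (Or.inr (Or.inr (Or.inl h1)))
    · exact Or.inr (Or.inr (Or.inr (Or.inr (Or.inr ⟨h1, h2⟩))))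

end Pool.Agent.L0h24.AV
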