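import Pool.Agent.L0h45.AV.Stm

/-! # VOL: the volume -/

set_option autoImplicit false
set_option linter.all false

open Finset Filter Topology MeasureTheory

namespace Pool.Agent.L0h24.AV

open Pool.Agent.L0h45.AV

theorem t_VOL : S_JAC → S_ITG → S_VOL := by
  intro hJ hI
  have hD : ∀ q ∈ Dm, 0 < q 1 ∧ 0 < (Bq q).x := fun q hq => ⟨hq.1.2.2.1, hq.2.2.2.2⟩
  have hJ' : ∀ q : Fin 4 → ℝ, ∃ f' : (Fin 4 → ℝ) →L[ℝ] (Fin 4 → ℝ), q ∈ Dm →
      HasFDerivAt (fun q => cd (Bq q)) f' q ∧ |f'.det| = 3 * (q 3) ^ 2 / (q 1) ^ 2 := by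
    intro q
    by_cases hq : q ∈ Dm
    · obtain ⟨f', h⟩ := hJ q (hD q hq).1 (hD q hq).2
      exact ⟨f', fun _ => h⟩
    · exact ⟨0, fun h => absurd h hq⟩
  choose f' hf' using hJ'
  have h1 := addHaar_image_le_lintegral_abs_det_fderiv (μ := (volume : Measure (Fin 4 → ℝ))) hI.1
    (f := fun q => cd (Bq q)) (f' := f') (fun q hq => ((hf' q hq).1).hasFDerivWithinAt)
  refine h1.trans (le_trans (le_of_eq ?_) hI.2)
  refine setLIntegral_congr_fun hI.1 fun q hq => ?_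
  show ENNReal.ofReal |(f' q).det| = _
  rw [(hf' q hq).2]

end Pool.Agent.L0h24.AV
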